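import Pool.Agent.W912.SE.Defs

/-!
# SE-NUM: asymptotics of numbers
-/

set_option autoImplicit false

namespace Pool.Agent.W402.SE

open Filter

theorem poly_exp (c d e : ℕ) (he : 1 ≤ e) : ∃ n₀ : ℕ, ∀ n ≥ n₀, c * (n + 1) ^ d ≤ 2 ^ (n / e) := by
  have h1 := tendsto_pow_const_div_const_pow_of_one_lt d (r := (2 : ℝ)) one_lt_two
  have h2 : ∀ᶠ u : ℕ in atTop, (u : ℝ) ^ d / 2 ^ u < 1 / (2 * ((c : ℝ) * (e : ℝ) ^ d + 1)) :=
    h1.eventually_lt_const (by positivity)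
  obtain ⟨u₀, hu⟩ := eventually_atTop.mp h2
  refine ⟨e * u₀, fun n hn => ?_⟩
  have hu1 : u₀ ≤ n / e := (Nat.le_div_iff_mul_le he).mpr (by rw [mul_comm]; exact hn)
  generalize hun : n / e = u at *
  have h3 := hu (u + 1) (by omega)
  have h4 : n + 1 ≤ e * (u + 1) := by
    have := Nat.lt_mul_div_succ n (show 0 < e from he)
    rw [hun] at this
    omega
  have h5 : c * (n + 1) ^ d ≤ c * e ^ d * (u + 1) ^ d := by
    calc c * (n + 1) ^ d ≤ c * (e * (u + 1)) ^ d := by gcongr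
      _ = c * e ^ d * (u + 1) ^ d := by rw [mul_pow, mul_assoc]
  have h6 : ((c * e ^ d * (u + 1) ^ d : ℕ) : ℝ) ≤ ((2 ^ u : ℕ) : ℝ) := by
    rw [div_lt_div_iff₀ (by positivity) (by positivity)] at h3
    push_cast at h3 ⊢
    rw [pow_succ (2 : ℝ) u] at h3
    have h7 : (0 : ℝ) ≤ ((u : ℝ) + 1) ^ d := by positivity
    nlinarith
  exact h5.trans (by exact_mod_cast h6)

theorem eval_le (P : Polynomial ℕ) (x : ℕ) (hx : 1 ≤ x) :
    P.eval x ≤ P.eval 1 * x ^ P.natDegree := by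
  rw [Polynomial.eval_eq_sum_range, Polynomial.eval_eq_sum_range, Finset.sum_mul]
  apply Finset.sum_le_sum
  intro i hi
  rw [one_pow, mul_one]
  have : i ≤ P.natDegree := by
    have := Finset.mem_range.mp hi
    omega
  exact Nat.mul_le_mul_left _ (Nat.pow_le_pow_right hx this)

theorem real_part (m D K : ℕ) (hK : 2 ^ (D / 2) * 2 ^ (m + 4) ≤ K) :
    ((1 : ℝ) - (1 / 2) ^ (m + 4)) ^ K ≤ (1 / 2) ^ (2 ^ (D / 2) : ℕ) := by
  set x : ℝ := (1 / 2) ^ (m + 4) with hx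
  have hx0 : 0 < x := by rw [hx]; positivity
  have hx1 : x ≤ 1 := by
    rw [hx]; exact pow_le_one₀ (by norm_num) (by norm_num)
  have h1 : (1 - x) ^ K ≤ Real.exp (-x) ^ K := by
    apply pow_le_pow_left₀ (by linarith)
    have := Real.add_one_le_exp (-x)
    linarith
  have h2 : (2 : ℝ) ^ (m + 4) * x = 1 := by
    rw [hx, ← mul_pow]; norm_num
  have h3 : ((2 ^ (D / 2) : ℕ) : ℝ) ≤ x * K := by
    have h4 : ((2 ^ (D / 2) * 2 ^ (m + 4) : ℕ) : ℝ) ≤ K := by exact_mod_cast hK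
    push_cast at h4 ⊢
    have h5 : x * ((2 : ℝ) ^ (D / 2) * 2 ^ (m + 4)) ≤ x * K := mul_le_mul_of_nonneg_left h4 hx0.le
    have h6 : x * ((2 : ℝ) ^ (D / 2) * 2 ^ (m + 4)) = 2 ^ (D / 2) := by
      calc x * ((2 : ℝ) ^ (D / 2) * 2 ^ (m + 4)) = 2 ^ (D / 2) * (2 ^ (m + 4) * x) := by ring
        _ = 2 ^ (D / 2) := by rw [h2, mul_one]
    linarith
  have h4 : Real.exp (-x) ^ K = Real.exp (-(x * K)) := by
    rw [← Real.exp_nat_mul]; congr 1; ring
  have h5 : Real.exp (-(x * K)) ≤ Real.exp (-((2 ^ (D / 2) : ℕ) : ℝ)) :=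
    Real.exp_le_exp.mpr (by linarith)
  have h6 : Real.exp (-((2 ^ (D / 2) : ℕ) : ℝ)) = Real.exp (-1) ^ (2 ^ (D / 2) : ℕ) := by
    rw [← Real.exp_nat_mul]; congr 1; ring
  have h7 : Real.exp (-1) ≤ 1 / 2 := by
    have h8 := Real.exp_one_gt_d9
    rw [Real.exp_neg, inv_eq_one_div]
    exact one_div_le_one_div_of_le (by norm_num) (by linarith)
  calc (1 - x) ^ K ≤ Real.exp (-x) ^ K := h1
    _ = Real.exp (-(x * K)) := h4
    _ ≤ Real.exp (-((2 ^ (D / 2) : ℕ) : ℝ)) := h5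
    _ = Real.exp (-1) ^ (2 ^ (D / 2) : ℕ) := h6
    _ ≤ (1 / 2) ^ (2 ^ (D / 2) : ℕ) := pow_le_pow_left₀ (Real.exp_pos _).le h7 _

theorem Lb_le (n m₀ D : ℕ) (hD : 1 ≤ D) :
    Pool.Agent.W912.SE.Lb n (m₀ * (n + 1)) D + 1
      ≤ ((m₀ + 1) * (3 * m₀ + 20) + 1) * (n + 1) ^ 3 * D := by
  unfold Pool.Agent.W912.SE.Lb
  have h1 : m₀ * (n + 1) + 1 ≤ (m₀ + 1) * (n + 1) := by nlinarith
  have h2 : 3 * (m₀ * (n + 1) + D + 2) + n * (2 * n + 3) + 8 ≤ (3 * m₀ + 20) * (n + 1) ^ 2 * D := by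
    have h3 : 3 * (m₀ * (n + 1) + 2) + n * (2 * n + 3) + 8 + 3 ≤ (3 * m₀ + 20) * (n + 1) ^ 2 := by
      nlinarith [Nat.zero_le (m₀ * n), Nat.zero_le (m₀ * n ^ 2), Nat.zero_le (n ^ 2)]
    calc 3 * (m₀ * (n + 1) + D + 2) + n * (2 * n + 3) + 8
        = (3 * (m₀ * (n + 1) + 2) + n * (2 * n + 3) + 8) * 1 + 3 * D := by ring
      _ ≤ (3 * (m₀ * (n + 1) + 2) + n * (2 * n + 3) + 8) * D + 3 * D := by gcongr
      _ = (3 * (m₀ * (n + 1) + 2) + n * (2 * n + 3) + 8 + 3) * D := by ring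
      _ ≤ (3 * m₀ + 20) * (n + 1) ^ 2 * D := by gcongr
  have h4 : 1 ≤ (n + 1) ^ 3 * D := Nat.mul_pos (by positivity) hD
  calc (m₀ * (n + 1) + 1) * (3 * (m₀ * (n + 1) + D + 2) + n * (2 * n + 3) + 8) + 1
      ≤ ((m₀ + 1) * (n + 1)) * ((3 * m₀ + 20) * (n + 1) ^ 2 * D) + (n + 1) ^ 3 * D := by gcongr
    _ = ((m₀ + 1) * (3 * m₀ + 20) + 1) * (n + 1) ^ 3 * D := by ring

theorem hx_lem (n T L : ℕ) (hn2 : 2 ≤ n) (hTn : T ≤ 2 ^ n) (hLn : L + 1 ≤ 2 ^ n * 2 ^ n) :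
    3 * T + L + 1 ≤ 2 ^ (3 * n) := by
  have h1 : (4 : ℕ) ≤ 2 ^ n := by
    calc (4 : ℕ) = 2 ^ 2 := by norm_num
      _ ≤ 2 ^ n := Nat.pow_le_pow_right (by norm_num) hn2
  have h2 : 2 ^ (3 * n) = 2 ^ n * 2 ^ n * 2 ^ n := by
    rw [← pow_add, ← pow_add]; congr 1; ring
  rw [h2]
  generalize 2 ^ n = X at *
  have h3 : 3 * X ≤ 3 * (X * X) := by nlinarith
  have h4 : X * X * 4 ≤ X * X * X := Nat.mul_le_mul_left _ h1
  nlinarith

theorem num : Pool.Agent.W912.SE.S_NUM := by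
  intro P C k a b m₀ hb hab
  set c1 : ℕ := (m₀ + 1) * (3 * m₀ + 20) + 1 with hc1
  set h : ℕ := 4 * b * (k + 1) with hh
  have hh1 : 1 ≤ h := by rw [hh]; exact Nat.mul_pos (by omega) (by omega)
  obtain ⟨N1, hN1⟩ := poly_exp (48 * (m₀ + 4) * C * c1 ^ k) (3 * k + 1) (4 * b) (by omega)
  obtain ⟨N2, hN2⟩ := poly_exp c1 3 1 le_rfl
  obtain ⟨N3, hN3⟩ := poly_exp (P.eval 1) 0 1 le_rfl
  obtain ⟨N4, hN4⟩ := poly_exp (6 * m₀ + 14) 1 h hh1
  refine ⟨h, 3 * P.natDegree + 2, max (max N1 N2) (max (max N3 N4) 2), hh1, ?_⟩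
  intro n hn D m hD hm
  have e1 := hN1 n (le_trans (le_trans (le_max_left _ _) (le_max_left _ _)) hn)
  have e2 := hN2 n (le_trans (le_trans (le_max_right _ _) (le_max_left _ _)) hn)
  have e3 := hN3 n (le_trans (le_trans (le_max_left _ _) (le_trans (le_max_left _ _) (le_max_right _ _))) hn)
  have e4 := hN4 n (le_trans (le_trans (le_max_right _ _) (le_trans (le_max_left _ _) (le_max_right _ _))) hn)
  have hn2 : 2 ≤ n := le_trans (le_trans (le_max_right _ _) (le_max_right _ _)) hn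
  rw [Nat.div_one] at e2 e3
  rw [pow_zero, mul_one] at e3
  rw [pow_one] at e4
  have hD1 : 1 ≤ D := by rw [hD]; exact Nat.one_le_two_pow
  have hDn : D ≤ 2 ^ n := by
    rw [hD]; exact Nat.pow_le_pow_right (by norm_num) (Nat.div_le_self _ _)
  have hc1m : m₀ + 2 ≤ c1 := by
    rw [hc1]; nlinarith
  have hmn : m + n + 1 ≤ 2 ^ n := by
    refine le_trans ?_ e2
    rw [hm]
    have h1 : (m₀ + 1) * (n + 1) ≤ c1 * (n + 1) ^ 3 := by
      have h2 : n + 1 ≤ (n + 1) ^ 3 := Nat.le_self_pow (by norm_num) _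
      exact Nat.mul_le_mul (by omega) h2
    nlinarith
  refine ⟨?_, ?_, ?_⟩
  · -- (1)
    have h1 : m + D + n + 1 ≤ 2 ^ (n + 1) := by
      rw [pow_succ]; omega
    refine h1.trans (Nat.pow_le_pow_right (by norm_num) ?_)
    rw [show (3 * P.natDegree + 2) * n = 3 * n * P.natDegree + 2 * n by ring]
    omega
  · -- (2)
    intro L T hL hT
    have hLb := Lb_le n m₀ D hD1
    rw [← hm] at hLb
    have hL1 : L + 1 ≤ c1 * (n + 1) ^ 3 * D := by
      rw [hc1]; omega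
    -- exponents
    set u : ℕ := n / (4 * b) with hu
    have hku : k * (n / h) ≤ u := by
      rw [hu, Nat.le_div_iff_mul_le (by omega)]
      have h1 := Nat.div_mul_le_self n h
      calc k * (n / h) * (4 * b) ≤ (k + 1) * (n / h) * (4 * b) := by gcongr; omega
        _ = n / h * h := by rw [hh]; ring
        _ ≤ n := h1
    have h4u : 4 * u ≤ n / b := by
      rw [hu, Nat.le_div_iff_mul_le hb]
      have h1 := Nat.div_mul_le_self n (4 * b)
      calc 4 * (n / (4 * b)) * b = n / (4 * b) * (4 * b) := by ring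
        _ ≤ n := h1
    have hanb : a * n / b + n / b ≤ n := by
      calc a * n / b + n / b ≤ (a * n + n) / b := Nat.div_add_div_le_add_div
        _ = (a + 1) * n / b := by ring_nf
        _ ≤ (b * n) / b := by gcongr; omega
        _ = n := Nat.mul_div_cancel_left n hb
    have hDk : D ^ k ≤ 2 ^ u := by
      rw [hD, ← pow_mul, mul_comm]
      exact Nat.pow_le_pow_right (by norm_num) hku
    have hm4 : m + 4 ≤ (m₀ + 4) * (n + 1) := by rw [hm]; nlinarith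
    have hT48 : 48 * (m + 4) * T ≤ 2 ^ n := by
      calc 48 * (m + 4) * T = 48 * (m + 4) * (C * (L + 1) ^ k * 2 ^ (a * n / b)) := by rw [hT]
        _ ≤ 48 * ((m₀ + 4) * (n + 1)) * (C * (c1 * (n + 1) ^ 3 * D) ^ k * 2 ^ (a * n / b)) := by
          gcongr
        _ = (48 * (m₀ + 4) * C * c1 ^ k * (n + 1) ^ (3 * k + 1)) * D ^ k * 2 ^ (a * n / b) := by
          rw [mul_pow, mul_pow, ← pow_mul, pow_succ]; ring
        _ ≤ 2 ^ u * 2 ^ u * 2 ^ (a * n / b) := by gcongr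
        _ = 2 ^ (u + u + a * n / b) := by rw [pow_add, pow_add]
        _ ≤ 2 ^ n := Nat.pow_le_pow_right (by norm_num) (by omega)
    refine ⟨hT48, ?_⟩
    have hTn : T ≤ 2 ^ n :=
      le_trans (Nat.le_mul_of_pos_left T (Nat.mul_pos (by norm_num) (Nat.succ_pos _))) hT48
    have hLn : L + 1 ≤ 2 ^ n * 2 ^ n := hL1.trans (by gcongr)
    have hx : 3 * T + L + 1 ≤ 2 ^ (3 * n) := hx_lem n T L hn2 hTn hLn
    calc P.eval (3 * T + L + 1) ≤ P.eval 1 * (3 * T + L + 1) ^ P.natDegree := eval_le P _ (by omega)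
      _ ≤ 2 ^ n * (2 ^ (3 * n)) ^ P.natDegree := by gcongr
      _ = 2 ^ (n + 3 * n * P.natDegree) := by rw [← pow_mul, pow_add]
      _ ≤ 2 ^ ((3 * P.natDegree + 2) * n) := Nat.pow_le_pow_right (by norm_num) (by
          rw [show (3 * P.natDegree + 2) * n = 3 * n * P.natDegree + 2 * n by ring]
          omega)
  · -- (3)
    have hD2 : 3 * m + n + 7 ≤ D / 2 := by
      rw [Nat.le_div_iff_mul_le (by norm_num), hm]
      refine le_trans ?_ (hD ▸ e4)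
      nlinarith
    refine ⟨2 ^ D / ((2 ^ n + m * 2 ^ n) * 2 ^ (m + 3)), ?_, ?_⟩
    · rw [mul_assoc]
      exact Nat.div_mul_le_self _ _
    · apply real_part
      have hpos : 0 < (2 ^ n + m * 2 ^ n) * 2 ^ (m + 3) := by positivity
      rw [Nat.le_div_iff_mul_le hpos]
      have h1 : 1 + m ≤ 2 ^ m := by
        have := Nat.lt_two_pow_self (n := m)
        omega
      calc 2 ^ (D / 2) * 2 ^ (m + 4) * ((2 ^ n + m * 2 ^ n) * 2 ^ (m + 3))
          = 2 ^ (D / 2) * 2 ^ (m + 4) * ((1 + m) * 2 ^ n * 2 ^ (m + 3)) := by ring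
        _ ≤ 2 ^ (D / 2) * 2 ^ (m + 4) * (2 ^ m * 2 ^ n * 2 ^ (m + 3)) := by gcongr
        _ = 2 ^ (D / 2 + (m + 4) + (m + n + (m + 3))) := by
          rw [pow_add 2 (D / 2 + (m + 4)) (m + n + (m + 3)), pow_add 2 (D / 2) (m + 4),
            pow_add 2 (m + n) (m + 3), pow_add 2 m n]
        _ ≤ 2 ^ D := Nat.pow_le_pow_right (by norm_num) (by omega)

end Pool.Agent.W402.SE
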